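import Mathlib
import Pool.Agent.N636.GF.Main

/-!
MP_71ec98_lc, Q1, full answer (yes).  The pair of the families of the finite grammar forms
`S → ab, S → ba` and `S → aa` is dense.
-/

namespace Pool.Agent.Results.MP_71ec98_lc.DensePairExists

open Pool.Agent.N636.GF

theorem result :
    F1.lang.Finite ∧ F2.lang.Finite ∧ fam F1 ⊂ fam F2 ∧ DensePair (fam F1) (fam F2) := by
  refine ⟨?_, ?_, strict, dense⟩
  · rw [lang_F1]; simp
  · rw [lang_F2]; simp

end Pool.Agent.Results.MP_71ec98_lc.DensePairExists
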